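import Pool.Agent.Run7.h587.Ad.Def
import Pool.Agent.Run7.h587.Ad.Open

/-!
# K3 surfaces for which the closure of the rational points is open in the space of the `2`-adic points

`X : w² = f(z₁, …, z_n)`, where `f` has degree at most `4` in each variable: an affine open subset of a
double cover of `(ℙ¹)ⁿ` branched along a divisor of multidegree `(4, …, 4)`, for `n = 2` a K3 surface
if the divisor is smooth.

`f` is adapted at `2` if its coefficients are `2`-integral, and if for all the points `(z, w)` of `X`
over `ℚ₂` the coordinates `z_i` are `2`-adic integers, `w ≠ 0`, the curves of genus one in the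
directions of the coordinates through the point are smooth, and `2 w` is `2`-adically smaller than the
partial derivatives `∂f/∂z_i` at `z`. For example, by (4), all the polynomials
`f ≡ 3 ∏ (z_i² + z_i + 1)² + ∑ (z_i² + z_i) + 2` modulo `4` with integral coefficients and of degree at
most `4` in each variable are adapted at `2`.

Let `K` be a field of characteristic zero with an embedding `σ₀` in `ℚ₂`, for example `ℚ`, or a number
field with a place of degree one above `2`, and let `f` be a polynomial over `K` such that `σ₀ f` is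
adapted.

(1) The space `X(ℚ₂)` is compact (there are no points at infinity), and the closure of `X(K)` is open
and closed in it.

(2) For each real place, the closure of `X(K)` in `X(ℝ) × X(ℚ₂)` is a neighbourhood of all its points
whose real component does not lie on the branch divisor and on singular curves in the directions of
the coordinates.

(3) For all finite sets of places, consisting of embeddings of `K` in fields `ℚ_p` for different primes
`p` and possibly a real place (for `K = ℚ`: all finite sets of places), the closure of `X(K)` in the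
product of the spaces `X(K_v)` is a neighbourhood of each `K`-point of `X`, without exceptions.

These assertions would follow from the conjecture that the Brauer–Manin obstruction is the only one to
weak approximation on K3 surfaces, since the Brauer group modulo constants is finite; (3) says that each
`K`-point has arbitrarily close points in `X(K)` to all the local points near it.

(5) The class in (4) contains many varieties with a rational point: the set of those `g` for which the
variety of `f = 3 ∏ (z_i² + z_i + 1)² + ∑ (z_i² + z_i) + 2 + 4 g` has a rational point over `z = 0` is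
Zariski dense in the space of all polynomials of degree at most `4` in each variable.

Idea of the proof. The two points `(z, w)` and `(z, -w)` on a curve of genus one `w² = q(t)`,
`q(0) = w²`, in the direction of a coordinate are congruent modulo `2`. Their difference in the Jacobian
has the abscissa `q₁² / (4 w²) - q₂`, which is not a `2`-adic integer if `2 w` is smaller than
`q₁ = ∂f/∂z_i`. Doubling makes the abscissa larger, so the difference has infinite order, for all the
points over `ℚ₂`, and the theorem `OpenAwayFromTorsion` on the closure of the rational points near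
points of infinite order applies to all the points over `ℚ₂`, and to all the `K`-points at all places.
-/

set_option autoImplicit false

namespace Pool.Agent.Results.MP_ed3816_nt.AdaptedAtTwo

open MvPolynomial Pool.Agent.Run7.h587.Ad

/-- The polynomial `q(t) = F(z + t e_i)`. -/
noncomputable def line {K : Type} [Field K] {n : ℕ} (F : MvPolynomial (Fin n) K) (z : Fin n → K)
    (i : Fin n) : Polynomial K :=
  aeval (fun k => Polynomial.C (z k) + Polynomial.C ((Pi.single i 1 : Fin n → K) k) *
    Polynomial.X) F

/-- The Jacobian of the curve `w² = q(t)`, where `q` is a polynomial of degree at most `4`. The curve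
is smooth of genus one if the discriminant of the Jacobian is not zero. -/
noncomputable def jacobian {K : Type} [Field K] (q : Polynomial K) : WeierstrassCurve K :=
  ⟨0, q.coeff 2, 0, q.coeff 1 * q.coeff 3 - 4 * q.coeff 0 * q.coeff 4,
    q.coeff 1 ^ 2 * q.coeff 4 + q.coeff 0 * q.coeff 3 ^ 2 - 4 * q.coeff 0 * q.coeff 2 * q.coeff 4⟩

/-- `F` is adapted: the degree in each variable is at most `4`, the coefficients are integral, and at
all the points of `w² = F(z)` over `ℚ₂` the coordinates `z_i` are integral, `w ≠ 0`, the curves in the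
directions of the coordinates are smooth, and `2 w` is smaller than the partial derivatives. -/
def Adapted {n : ℕ} (F : MvPolynomial (Fin n) ℚ_[2]) : Prop :=
  (∀ i, F.degreeOf i ≤ 4) ∧ (∀ m, ‖F.coeff m‖ ≤ 1) ∧
  ∀ (z : Fin n → ℚ_[2]) (w : ℚ_[2]), w ^ 2 = eval z F → w ≠ 0 ∧
    ∀ i, ‖z i‖ ≤ 1 ∧ ‖2 * w‖ < ‖eval z (pderiv i F)‖ ∧ (jacobian (line F z i)).Δ ≠ 0

/-- The points `(z, w)` of the variety `w² = F(z)`. -/
def points {K : Type} [Field K] {n : ℕ} (F : MvPolynomial (Fin n) K) : Set ((Fin n → K) × K) :=
  {P | P.2 ^ 2 = eval P.1 F}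

/-- The image of a point under an embedding of fields. -/
def image {K L : Type} [Field K] [Field L] (φ : K →+* L) {n : ℕ} (P : (Fin n → K) × K) :
    (Fin n → L) × L :=
  (fun j => φ (P.1 j), φ P.2)

/-- The closure of the set of the `K`-points in the space of the `ℚ₂`-points. -/
def ClTwo {K : Type} [Field K] {n : ℕ} (f : MvPolynomial (Fin n) K) (σ₀ : K →+* ℚ_[2]) :
    Set ((Fin n → ℚ_[2]) × ℚ_[2]) :=
  closure {S | ∃ P ∈ points f, S = image σ₀ P}

/-- The closure of the set of the `K`-points in the product of the spaces of the real points and of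
the `ℚ₂`-points. -/
def ClRealTwo {K : Type} [Field K] {n : ℕ} (f : MvPolynomial (Fin n) K) (τ : K →+* ℝ)
    (σ₀ : K →+* ℚ_[2]) : Set (((Fin n → ℝ) × ℝ) × ((Fin n → ℚ_[2]) × ℚ_[2])) :=
  closure {S | ∃ P ∈ points f, S = (image τ P, image σ₀ P)}

/-- The closure of the set of the `K`-points in the product of the spaces of the `ℚ_[p i]`-points. -/
def Cl {K : Type} [Field K] {n : ℕ} (f : MvPolynomial (Fin n) K) {ι : Type} {p : ι → ℕ}
    [∀ i, Fact (p i).Prime] (σ : ∀ i, K →+* ℚ_[p i]) : Set (∀ i, (Fin n → ℚ_[p i]) × ℚ_[p i]) :=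
  closure {S | ∃ P ∈ points f, S = fun i => image (σ i) P}

/-- The closure of the set of the `K`-points in the product of the spaces of the real points and of
the `ℚ_[p i]`-points. -/
def ClReal {K : Type} [Field K] {n : ℕ} (f : MvPolynomial (Fin n) K) {ι : Type} {p : ι → ℕ}
    [∀ i, Fact (p i).Prime] (σ : ∀ i, K →+* ℚ_[p i]) (τ : K →+* ℝ) :
    Set (((Fin n → ℝ) × ℝ) × ∀ i, (Fin n → ℚ_[p i]) × ℚ_[p i]) :=
  closure {S | ∃ P ∈ points f, S = (image τ P, fun i => image (σ i) P)}

/-- The polynomials `3 ∏ (z_i² + z_i + 1)² + ∑ (z_i² + z_i) + 2 + 4 g`. -/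
noncomputable def member {n : ℕ} (g : MvPolynomial (Fin n) ℤ) : MvPolynomial (Fin n) ℤ :=
  3 * ∏ i, (X i ^ 2 + X i + 1) ^ 2 + ∑ i, (X i ^ 2 + X i) + 2 + 4 * g

/-- The polynomial with the coefficients `c`, of degree at most `4` in each variable. -/
noncomputable def poly {n : ℕ} (c : (Fin n → Fin 5) → ℤ) : MvPolynomial (Fin n) ℤ :=
  ∑ e, C (c e) * ∏ i, X i ^ (e i : ℕ)

lemma adapted_iff {n : ℕ} (F : MvPolynomial (Fin n) ℚ_[2]) :
    Adapted F ↔ Pool.Agent.Run7.h587.Ad.Adapted F := by
  rw [← adT_iff]
  exact Iff.rfl

lemma genus_iff {F : Type} [Field F] [CharZero F] (q : Polynomial F) :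
    (jacobian q).Δ ≠ 0 ↔
      Pool.Agent.Results.MP_ed3816_nt.OpenAwayFromTorsion.GenusOne q :=
  (jac_db q).trans (genusOne_db q).symm

/-- **The closure of the rational points on adapted double covers.** -/
theorem result :
    (∀ (K : Type) [Field K] [CharZero K] (σ₀ : K →+* ℚ_[2]) (n : ℕ) (f : MvPolynomial (Fin n) K),
      Adapted (map σ₀ f) →
      -- (1) the closure in the compact space `X(ℚ₂)` is open
      (IsCompact (points (map σ₀ f)) ∧ ∃ O : Set ((Fin n → ℚ_[2]) × ℚ_[2]), IsOpen O ∧
        ClTwo f σ₀ = O ∩ points (map σ₀ f)) ∧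
      -- (2) the closure in `X(ℝ) × X(ℚ₂)`
      (∀ τ : K →+* ℝ, ∀ T ∈ ClRealTwo f τ σ₀, T.1.2 ≠ 0 →
        (∀ i, (jacobian (line (map τ f) T.1.1 i)).Δ ≠ 0) →
        ∃ U ∈ nhds T, ∀ S ∈ U, S.1 ∈ points (map τ f) → S.2 ∈ points (map σ₀ f) →
          S ∈ ClRealTwo f τ σ₀) ∧
      -- (3) finite products, near a `K`-point
      ∀ (ι : Type) [Finite ι] (p : ι → ℕ) [∀ v, Fact (p v).Prime], Function.Injective p →
        ∀ (σ : ∀ v, K →+* ℚ_[p v]), ∀ P ∈ points f,
          (∃ U ∈ nhds (fun v => image (σ v) P), ∀ S ∈ U, (∀ v, S v ∈ points (map (σ v) f)) →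
            S ∈ Cl f σ) ∧
          ∀ τ : K →+* ℝ, ∃ U ∈ nhds (image τ P, fun v => image (σ v) P), ∀ S ∈ U,
            S.1 ∈ points (map τ f) → (∀ v, S.2 v ∈ points (map (σ v) f)) → S ∈ ClReal f σ τ) ∧
    -- (4) the residue class modulo `4`
    (∀ (n : ℕ) (g : MvPolynomial (Fin n) ℤ), (∀ i, g.degreeOf i ≤ 4) →
      Adapted (map (Int.castRingHom ℚ_[2]) (member g))) ∧
    -- (5) the members with a rational point over `z = 0` are Zariski dense
    (∀ (n : ℕ) (P : MvPolynomial (Fin n → Fin 5) ℂ), P ≠ 0 →
      ∃ (c : (Fin n → Fin 5) → ℤ) (w : ℤ), eval (fun e => (c e : ℂ)) P ≠ 0 ∧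
        w ^ 2 = eval (fun _ => 0) (member (poly c))) := by
  refine ⟨fun K _ _ σ₀ n f hf => ?_, ?_, ?_⟩
  · have hf' := (adapted_iff _).1 hf
    refine ⟨⟨compact_two hf', ?_⟩, ?_, ?_⟩
    · refine ⟨interior {y | y ∈ points (map σ₀ f) → y ∈ ClTwo f σ₀}, isOpen_interior, ?_⟩
      ext x
      constructor
      · intro hx
        refine ⟨?_, on_of_cl hx⟩
        obtain ⟨U, hU, h⟩ := open_two hf' hx
        exact mem_interior_iff_mem_nhds.2 (Filter.mem_of_superset hU h)
      · rintro ⟨h1, h3⟩
        exact interior_subset h1 h3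
    · intro τ T hT hw hg
      exact open_real_two hf' τ hT hw fun i => (genus_iff _).1 (hg i)
    · intro ι _ p _ hinj σ P hP
      rcases isEmpty_or_nonempty ι with hE | hN
      · refine ⟨⟨Set.univ, Filter.univ_mem, fun S _ _ => ?_⟩, fun τ => ?_⟩
        · refine subset_closure ⟨P, hP, ?_⟩
          funext v
          exact (hE.false v).elim
        · obtain ⟨U, hU, h⟩ := open_real hf' τ hP
          refine ⟨Prod.fst ⁻¹' U, continuous_fst.continuousAt.preimage_mem_nhds hU,
            fun S hS hr _ => ?_⟩
          have h1 : S.1 ∈ closure (Im f τ) := h S.1 hS hr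
          have h2 : Continuous fun y : (Fin n → ℝ) × ℝ => (y, S.2) := by fun_prop
          have h3 := image_closure_subset_closure_image h2 ⟨S.1, h1, rfl⟩
          refine closure_mono ?_ h3
          rintro _ ⟨_, ⟨Q, hQ, rfl⟩, rfl⟩
          refine ⟨Q, hQ, Prod.ext rfl ?_⟩
          funext v
          exact (hE.false v).elim
      · obtain ⟨h1, h2⟩ := openAt_gen hf' hinj σ hP
        exact ⟨h1, h2⟩
  · intro n g hg
    exact (adapted_iff _).2 ((adT_iff _).1 (mem_adT hg))
  · intro n P hP
    obtain ⟨c, w, h4, h5⟩ := exist hP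
    rw [← mem_eq] at h5
    exact ⟨c, w, h4, h5⟩

end Pool.Agent.Results.MP_ed3816_nt.AdaptedAtTwo
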