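import Pool.Agent.Run7.h846.MqExt
import Pool.Agent.W279.Tri.LocComp

/-!
# Rational points near rational points of determinantal quartic K3 surfaces

`K` is a number field and `T` is a `4 × 4 × 4` array over `K`, that is, a trilinear form
`T(x, y, z)`, such that `T(x, ·, ·)`, `T(·, y, ·)`, `T(·, ·, z)` have rank at least three at all
nonzero vectors over an algebraic closure (this holds for a general `T`).  The surface `X` is the
quartic surface `det T(x, ·, ·) = 0` in `ℙ³`.  For a general `T` it is a K3 surface with Picard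
lattice `4(a² + 3ab + b²)`: it contains no curve of arithmetic genus zero or one, so it has no
elliptic fibration, and its automorphism group is, up to finite groups, generated by the fixed
point free automorphism of positive entropy of Cayley and Oguiso.

If the Brauer–Manin obstruction is the only one to weak approximation on `X` (Q1), then for every
finite extension `L` of `K`, every finite set `S` of places of `L` and every `y ∈ X(L)`, the
points of `X(L)` which are close to `y` at all places in `S` are Zariski dense in `X`: the set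
`X(𝔸_L)^Br` is open, because `Br(X_L)` is finite modulo constants.  We prove this consequence for
all `y` outside of a finite set (which depends on `L`, not on `S`) and all finite sets `S` of
places outside of a finite set (which depends on `K` and `T`, not on `L`).
-/

set_option autoImplicit false

namespace Pool.Agent.Results.MP_ed3816_nt.ClosureOfDeterminantalQuartics

open MvPolynomial

section matrices

variable {F : Type} [CommRing F]

/-- The matrix `S(x, ·, ·)` of a trilinear form `S`. -/
def mat₁ (S : Fin 4 → Fin 4 → Fin 4 → F) (x : Fin 4 → F) : Matrix (Fin 4) (Fin 4) F :=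
  Matrix.of fun j l => ∑ i, S i j l * x i

/-- The matrix `S(·, x, ·)` of a trilinear form `S` (transposed). -/
def mat₂ (S : Fin 4 → Fin 4 → Fin 4 → F) (x : Fin 4 → F) : Matrix (Fin 4) (Fin 4) F :=
  Matrix.of fun l i => ∑ j, S i j l * x j

/-- The matrix `S(·, ·, x)` of a trilinear form `S`. -/
def mat₃ (S : Fin 4 → Fin 4 → Fin 4 → F) (x : Fin 4 → F) : Matrix (Fin 4) (Fin 4) F :=
  Matrix.of fun i j => ∑ l, S i j l * x l

end matrices

/-- The trilinear form over a field `L` containing `K`. -/
def overField (L : Type) {K : Type} [Field K] [Field L] [Algebra K L]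
    (T : Fin 4 → Fin 4 → Fin 4 → K) : Fin 4 → Fin 4 → Fin 4 → L :=
  fun i j l => algebraMap K L (T i j l)

/-- The quartic form `det T(x, ·, ·)`. -/
noncomputable def quartic {K : Type} [Field K] (T : Fin 4 → Fin 4 → Fin 4 → K) :
    MvPolynomial (Fin 4) K :=
  (mat₁ (fun i j l => C (T i j l)) X).det

/-- The matrices `T(x, ·, ·)`, `T(·, x, ·)` and `T(·, ·, x)` have rank at least three (that is,
their adjugate matrix is not zero) at every nonzero vector `x` over an algebraic closure of `K`. -/
def Nondegenerate {K : Type} [Field K] (T : Fin 4 → Fin 4 → Fin 4 → K) : Prop :=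
  ∀ x : Fin 4 → AlgebraicClosure K, x ≠ 0 →
    (mat₁ (overField (AlgebraicClosure K) T) x).adjugate ≠ 0 ∧
    (mat₂ (overField (AlgebraicClosure K) T) x).adjugate ≠ 0 ∧
    (mat₃ (overField (AlgebraicClosure K) T) x).adjugate ≠ 0

/-- `T` is integral, and the three matrices have rank at least three modulo the maximal ideal (some
entry of their adjugate is a unit) at all the primitive vectors over the completion `F` where
they are singular. -/
def NondegenerateReduction {L F : Type} [Field L] [NontriviallyNormedField F] (σ : L →+* F)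
    (T : Fin 4 → Fin 4 → Fin 4 → L) : Prop :=
  (∀ i j l, ‖σ (T i j l)‖ ≤ 1) ∧
  ∀ x : Fin 4 → F, (∀ i, ‖x i‖ ≤ 1) → (∃ i, ‖x i‖ = 1) →
    ((mat₁ (fun i j l => σ (T i j l)) x).det = 0 →
      ∃ a b, 1 ≤ ‖(mat₁ (fun i j l => σ (T i j l)) x).adjugate a b‖) ∧
    ((mat₂ (fun i j l => σ (T i j l)) x).det = 0 →
      ∃ a b, 1 ≤ ‖(mat₂ (fun i j l => σ (T i j l)) x).adjugate a b‖) ∧
    ((mat₃ (fun i j l => σ (T i j l)) x).det = 0 →
      ∃ a b, 1 ≤ ‖(mat₃ (fun i j l => σ (T i j l)) x).adjugate a b‖)

/-- **Rational points near rational points, at finitely many places of good reduction.** -/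
theorem result :
    ∀ (K : Type) [Field K] [NumberField K] (T : Fin 4 → Fin 4 → Fin 4 → K), Nondegenerate T →
      -- the places
      (∃ B : Finset K, ∀ (L : Type) [Field L] [Algebra K L] (F : Type)
        [NontriviallyNormedField F] [IsUltrametricDist F] (σ : L →+* F),
        (∀ b ∈ B, ‖σ (algebraMap K L b)‖ ≤ 1) → NondegenerateReduction σ (overField L T)) ∧
      -- the extensions of `K`, and the exceptional points
      ∀ (L : Type) [Field L] [NumberField L] [Algebra K L], Irreducible (quartic (overField L T)) →
        ∃ R : Finset (Fin 4 → L), (∀ r ∈ R, r ≠ 0 ∧ eval r (quartic (overField L T)) = 0) ∧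
          -- finitely many completions `F v` of `L`
          ∀ (m : ℕ) (F : Fin m → Type) [∀ v, NontriviallyNormedField (F v)]
            [∀ v, CompleteSpace (F v)] [∀ v, IsUltrametricDist (F v)] (σ : ∀ v, L →+* F v),
            (∀ v, DenseRange (σ v)) → (∀ v, NondegenerateReduction (σ v) (overField L T)) →
            -- a rational point `y`, and neighbourhoods of `y` in the `X(F v)`
            ∀ y : Fin 4 → L, y ≠ 0 → eval y (quartic (overField L T)) = 0 →
              (∀ r ∈ R, ∀ c : L, y ≠ c • r) →
              ∀ U : ∀ v, Set (Fin 4 → F v), (∀ v, U v ∈ nhds (fun i => σ v (y i))) →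
              -- a polynomial which vanishes at the rational points in these neighbourhoods
              ∀ f : MvPolynomial (Fin 4) L,
                (∀ y' : Fin 4 → L, y' ≠ 0 → eval y' (quartic (overField L T)) = 0 →
                  (∀ v, ∃ c : F v, c ≠ 0 ∧ (fun i => c * σ v (y' i)) ∈ U v) →
                  eval y' f = 0) →
                quartic (overField L T) ∣ f := by
  intro K _ _ T hnd
  have hnd' : ∀ k, k < 3 → ∀ x : Fin 4 → AlgebraicClosure K, x ≠ 0 →
      (Run7.h846.MQ.Mat (Run7.h846.MQ.bc K (Run7.h846.MQ.rotn T k)) x).adjugate ≠ 0 := by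
    intro k hk x hx
    obtain ⟨h0, h1, h2⟩ := hnd x hx
    interval_cases k
    · exact h0
    · exact h1
    · exact h2
  obtain ⟨M, q, hq⟩ := Run7.h846.MQ.exists_certs T hnd'
  obtain ⟨B, hB⟩ := Run7.h846.MQ.exists_B hq
  constructor
  · refine ⟨B, ?_⟩
    intro L _ _ F _ _ σ hσ
    letI : Algebra L F := σ.toAlgebra
    have hG := Run7.h846.MQ.good_of_B hq hB (L := L) (F := F) hσ
    refine ⟨hG.tri, fun x hx1 hx2 => ⟨?_, ?_, ?_⟩⟩
    · exact hG.adj 0 x ⟨hx1, hx2⟩
    · exact hG.adj 1 x ⟨hx1, hx2⟩
    · exact hG.adj 2 x ⟨hx1, hx2⟩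
  · intro L _ _ _ hD
    have hD' : quartic (overField L T) =
        Run7.h846.MQ.detP (Run7.h846.MQ.bc K T : _ → _ → _ → L) := rfl
    rw [hD'] at hD ⊢
    obtain ⟨R, hR, hden⟩ := Run7.h846.MQ.density_R (hq.base (L := L)) hD
    refine ⟨R, hR, ?_⟩
    intro m F _ _ _ σ hσ hred y hy0 hyD hyR U hU f hf
    haveI : ∀ v, ProperSpace (F v) := fun v =>
      Pool.Agent.W279.Tri.properSpace_of_denseRange (σ v) (hσ v)
    letI : ∀ v, Algebra L (F v) := fun v => (σ v).toAlgebra
    have hG : ∀ v, Run7.h846.MQ.GoodR (F v) (Run7.h846.MQ.bc K T : _ → _ → _ → L) := by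
      intro v
      refine ⟨(hred v).1, fun k x hx hdet => ?_⟩
      obtain ⟨h0, h1, h2⟩ := (hred v).2 x hx.1 hx.2
      have hk : Run7.h846.MQ.rotn (Run7.h846.MQ.bc K T : _ → _ → _ → L) k =
          Run7.h846.MQ.rotn (Run7.h846.MQ.bc K T : _ → _ → _ → L) (k % 3) := by
        have := Run7.h846.MQ.rotn_add_mul (Run7.h846.MQ.bc K T : _ → _ → _ → L) (k % 3) (k / 3)
        rwa [Nat.mod_add_div] at this
      rw [hk] at hdet ⊢
      have hk3 : k % 3 < 3 := Nat.mod_lt _ (by norm_num)
      generalize k % 3 = m at hdet hk3 ⊢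
      interval_cases m
      · exact h0 hdet
      · exact h1 hdet
      · exact h2 hdet
    exact hden m F hG y hy0 hyD hyR U hU f hf

end Pool.Agent.Results.MP_ed3816_nt.ClosureOfDeterminantalQuartics
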