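import Pool.Agent.Run7.h587.Ad.Exm
import Pool.Agent.Run7.h587.Ad.Zd

/-!
# K3 surfaces with a dense set of rational points in the space of the `2`-adic points

`X : w² = f(z₁, …, z_n)`, `n ≥ 1`, where `f` has degree at most `4` in each variable: an affine open
subset of a double cover of `(ℙ¹)ⁿ` branched along a divisor of multidegree `(4, …, 4)`, for `n = 2` a
K3 surface if the divisor is smooth.

`f` is strongly adapted at `2` if its coefficients are `2`-integral, and if for all the points
`(z, w)` of `X` over `ℚ₂` the coordinates `z_i` are `2`-adic integers, `w` and the partial derivatives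
`∂f/∂z_i` at `z` are units, and the curves of genus one in the directions of the coordinates through the
point are smooth. For example, by (4), all the polynomials
`f ≡ 3 ∏ (z_i² + z_i + 1)² + ∑ (z_i² + z_i) + 2` modulo `4` with integral coefficients and of degree at
most `4` in each variable are strongly adapted. They were found in `AdaptedAtTwo`, where it is shown
that `X(ℚ₂)` is compact (there are no points at infinity), and that the closure of the rational points
is open in it. Here this closure is determined, and we find many K3 surfaces for which it is the whole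
space `X(ℚ₂)`.

Let `K` be a field of characteristic zero with an embedding `σ` in `ℚ₂`, for example `ℚ`, or a number
field with a place of degree one above `2`, and let `f` be a polynomial over `K` such that `σ f` is
strongly adapted. A move replaces a `K`-point `P = (z, w)` by a `K`-point `P + m D` on a curve of genus
one `C` in the direction of a coordinate, where `D` is the class of `(z, w) - (z, -w)` in the Jacobian
of `C`, and `m` is an integer.

(1) The closure in `X(ℚ₂)` of the orbit of a `K`-point `P` under moves is the set of all the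
`ℚ₂`-points whose coordinates `z_i` are congruent to those of `P` modulo `8`.

(2) The closure of `X(K)` is the set of all the `ℚ₂`-points whose coordinates `z_i` are congruent modulo
`8` to those of a `K`-point. So `X(K)` is dense in `X(ℚ₂)` if and only if each of the finitely many
residue classes of `z` modulo `8` which contain a `ℚ₂`-point contains a `K`-point.

(3) The closure of `X(K)` is the union of the closures of at most `8ⁿ` orbits.

(5) For each member `f₀` of the class in (4), with integral coefficients, for each set of at most `5ⁿ`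
residue classes of integral vectors `v` modulo `8` with `f₀(v) ≡ 1` modulo `8`, and for each `M` there is
a member `f` of the class which is congruent to `f₀` modulo `2^M`, such that the closure of `X(ℚ)`
contains all the `ℚ₂`-points of these residue classes.

(6) For each member `f₀` of the class in two variables and each `M` there is a member `f` congruent to
`f₀` modulo `2^M` such that `X(ℚ)` is dense in `X(ℚ₂)`.

(7) The double covers of `ℙ¹ × ℙ¹` over `ℚ` in the class for which `X(ℚ)` is dense in `X(ℚ₂)` are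
Zariski dense in the space of all double covers branched along curves of bidegree `(4, 4)`, so in this
family, with `18` moduli, of K3 surfaces.

(8) `X(ℚ)` is dense in `X(ℚ₂)` for
`f = 3 (u₁ + 1)² (u₂ + 1)² + 8 u₁ u₂ (u₁ + u₂ - 12) + u₁ + u₂ + 10`, `u_i = z_i² + z_i`.

Idea of the proof. The abscissa of `D` is `q₁² / (4 w²) - q₂`, where `q(t) = f(z + t e_i)`, of absolute
value `4`. So `D` is a topological generator of the kernel of the reduction of the Weierstrass equation
of the Jacobian over `ℚ₂`: the points with the abscissa of absolute value at least `4`. The sums of `P`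
and the points of this kernel are the points of `C` with `t` divisible by `8`; this proves that moves
preserve `z` modulo `8`, and that `z_i` can be moved to all the residues near to it, for all the
directions one after the other; the value of `w` is corrected by the last move, since the point
`(z, -w)` is also a limit. For (5) one chooses points of `ℤⁿ` in the residue classes, one after the
other, such that a polynomial which vanishes at the previous points does not vanish at the new one, and
changes `f` by a `2`-adically small multiple of this polynomial, so that the value of `f` is a square. In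
two variables, there are `16` residue classes modulo `8` which contain points of `X(ℚ₂)`, and the
polynomials have `25` coefficients. For (8), the `16` residue classes contain the points `(z₁, z₂)` of
`{0, -1} × {3, -4}` and `{3, -4} × {0, -1}` with `w = 23`, of `{1, -2} × {1, -2}` with `w = 1` and of
`{2, -3} × {2, -3}` with `w = 85`.
-/

set_option autoImplicit false

namespace Pool.Agent.Results.MP_ed3816_nt.ResiduesModEight

open MvPolynomial Pool.Agent.Run7.h587.Ad

/-- The polynomial `q(t) = F(z + t e_i)`. -/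
noncomputable def line {K : Type} [Field K] {n : ℕ} (F : MvPolynomial (Fin n) K) (z : Fin n → K)
    (i : Fin n) : Polynomial K :=
  aeval (fun k => Polynomial.C (z k) + Polynomial.C ((Pi.single i 1 : Fin n → K) k) *
    Polynomial.X) F

/-- The Jacobian of the curve `y² = q(t)`, where `q` is a polynomial of degree at most `4`. The curve
is smooth of genus one if the discriminant of the Jacobian is not zero. -/
noncomputable def jacobian {K : Type} [Field K] (q : Polynomial K) : WeierstrassCurve K :=
  ⟨0, q.coeff 2, 0, q.coeff 1 * q.coeff 3 - 4 * q.coeff 0 * q.coeff 4,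
    q.coeff 1 ^ 2 * q.coeff 4 + q.coeff 0 * q.coeff 3 ^ 2 - 4 * q.coeff 0 * q.coeff 2 * q.coeff 4⟩

/-- `F` is strongly adapted: the degree in each variable is at most `4`, the coefficients are
integral, and at all the points of `w² = F(z)` over `ℚ₂` the coordinates `z_i` are integral, `w` and
the partial derivatives are units, and the curves in the directions of the coordinates are
smooth. -/
def StronglyAdapted {n : ℕ} (F : MvPolynomial (Fin n) ℚ_[2]) : Prop :=
  (∀ i, F.degreeOf i ≤ 4) ∧ (∀ m, ‖F.coeff m‖ ≤ 1) ∧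
  ∀ (z : Fin n → ℚ_[2]) (w : ℚ_[2]), w ^ 2 = eval z F → ‖w‖ = 1 ∧
    ∀ i, ‖z i‖ ≤ 1 ∧ ‖eval z (pderiv i F)‖ = 1 ∧ (jacobian (line F z i)).Δ ≠ 0

/-- The points `(z, w)` of the variety `w² = F(z)`. -/
def points {K : Type} [Field K] {n : ℕ} (F : MvPolynomial (Fin n) K) : Set ((Fin n → K) × K) :=
  {P | P.2 ^ 2 = eval P.1 F}

/-- The closure, in the space of the `ℚ₂`-points, of the image of a set of `K`-points. -/
def Cl {K : Type} [Field K] {n : ℕ} (σ : K →+* ℚ_[2]) (R : Set ((Fin n → K) × K)) :
    Set ((Fin n → ℚ_[2]) × ℚ_[2]) :=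
  closure {S | ∃ P ∈ R, S = (fun j => σ (P.1 j), σ P.2)}

/-- The points `S` and `P` have the same coordinates `z_i` modulo `8`. -/
def Congr {K : Type} [Field K] {n : ℕ} (σ : K →+* ℚ_[2]) (S : (Fin n → ℚ_[2]) × ℚ_[2])
    (P : (Fin n → K) × K) : Prop :=
  ∀ i, ‖S.1 i - σ (P.1 i)‖ ≤ 1 / 8

section moves

variable {K : Type} [Field K]

/-- The Jacobian of the curve `y² = q(t)` with the point `(0, w)`, so `q(0) = w²`. -/
noncomputable def jac (w : K) (q : Polynomial K) : WeierstrassCurve K :=
  ⟨0, q.coeff 2, 0, q.coeff 1 * q.coeff 3 - 4 * w ^ 2 * q.coeff 4,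
    q.coeff 1 ^ 2 * q.coeff 4 + w ^ 2 * q.coeff 3 ^ 2 - 4 * w ^ 2 * q.coeff 2 * q.coeff 4⟩

/-- The abscissa of the difference `D` of the points `(0, w)` and `(0, -w)` in the Jacobian. -/
noncomputable def absc (w : K) (q : Polynomial K) : K := q.coeff 1 ^ 2 / (4 * w ^ 2) - q.coeff 2

/-- The ordinate of `D`. -/
noncomputable def ordi (w : K) (q : Polynomial K) : K :=
  (q.coeff 1 * absc w q + 2 * w ^ 2 * q.coeff 3) / (2 * w)

/-- The parameter `t` of the sum of the point `(0, w)` of the curve and the point `(x, y)` of the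
Jacobian is the fraction with this denominator ... -/
noncomputable def den (w : K) (q : Polynomial K) (x y : K) : K :=
  2 * w * y - q.coeff 1 * x - 2 * w ^ 2 * q.coeff 3

/-- ... and this numerator. -/
noncomputable def param (w : K) (q : Polynomial K) (x y : K) : K :=
  (4 * w ^ 2 * (x + q.coeff 2) - q.coeff 1 ^ 2) / den w q x y

/-- `Q` is the sum of `P = (z, w)` and a multiple `m D` in a curve `C` of genus one in the direction
of a coordinate, where `D` is the difference of `(z, w)` and `(z, -w)` in the Jacobian of `C`. -/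
def Move {n : ℕ} (f : MvPolynomial (Fin n) K) (P Q : (Fin n → K) × K) : Prop :=
  letI : DecidableEq K := Classical.decEq K
  ∃ i : Fin n, ∃ (h₀ : (jac P.2 (line f P.1 i)).toAffine.Nonsingular (absc P.2 (line f P.1 i))
      (ordi P.2 (line f P.1 i))) (m : ℤ) (x y : K)
    (h : (jac P.2 (line f P.1 i)).toAffine.Nonsingular x y),
    m • (.some _ _ h₀ : (jac P.2 (line f P.1 i)).toAffine.Point) = .some x y h ∧
    den P.2 (line f P.1 i) x y ≠ 0 ∧
    Q = (fun a => P.1 a + param P.2 (line f P.1 i) x y * (Pi.single i 1 : Fin n → K) a,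
      -P.2 + param P.2 (line f P.1 i) x y *
        (param P.2 (line f P.1 i) x y * x - (line f P.1 i).coeff 1) / (2 * P.2))

/-- The points which are reached from `P` by finitely many moves. -/
def orbit {n : ℕ} (f : MvPolynomial (Fin n) K) (P : (Fin n → K) × K) : Set ((Fin n → K) × K) :=
  {Q | Relation.ReflTransGen (Move f) P Q}

end moves

/-- The polynomials `3 ∏ (z_i² + z_i + 1)² + ∑ (z_i² + z_i) + 2 + 4 g`. -/
noncomputable def member {n : ℕ} (g : MvPolynomial (Fin n) ℤ) : MvPolynomial (Fin n) ℤ :=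
  3 * ∏ i, (X i ^ 2 + X i + 1) ^ 2 + ∑ i, (X i ^ 2 + X i) + 2 + 4 * g

/-- The polynomial with the coefficients `c`, of degree at most `4` in each variable. -/
noncomputable def poly {n : ℕ} (c : (Fin n → Fin 5) → ℤ) : MvPolynomial (Fin n) ℤ :=
  ∑ e, C (c e) * ∏ i, X i ^ (e i : ℕ)

/-- The example: `3 (u₁ + 1)² (u₂ + 1)² + 8 u₁ u₂ (u₁ + u₂ - 12) + u₁ + u₂ + 10`, where
`u_i = z_i² + z_i`. -/
noncomputable def exampleK3 : MvPolynomial (Fin 2) ℤ :=
  3 * (X 0 ^ 2 + X 0 + 1) ^ 2 * (X 1 ^ 2 + X 1 + 1) ^ 2 +
    8 * (X 0 ^ 2 + X 0) * (X 1 ^ 2 + X 1) * (X 0 ^ 2 + X 0 + (X 1 ^ 2 + X 1) - 12) +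
    (X 0 ^ 2 + X 0) + (X 1 ^ 2 + X 1) + 10

/-- The set of the rational points is dense in the set of the `2`-adic points. -/
def DenseAtTwo {n : ℕ} (f : MvPolynomial (Fin n) ℤ) : Prop :=
  points (map (Int.castRingHom ℚ_[2]) f) ⊆
    Cl (algebraMap ℚ ℚ_[2]) (points (map (Int.castRingHom ℚ) f))

/-! ### comparison with the helper files -/

section aux

variable {K : Type} [Field K] {n : ℕ} {f : MvPolynomial (Fin n) K}

lemma adapted_iff (F : MvPolynomial (Fin n) ℚ_[2]) (h : StronglyAdapted F) :
    Pool.Agent.Run7.h587.Ad.Adapted F ∧ Unit2 F := by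
  refine ⟨(adT_iff _).1 ⟨h.1, h.2.1, fun z w hw => ?_⟩, fun z w hw => ?_⟩
  · obtain ⟨h1, h2⟩ := h.2.2 z w hw
    refine ⟨?_, fun i => ⟨(h2 i).1, ?_, (h2 i).2.2⟩⟩
    · rintro rfl
      rw [norm_zero] at h1
      exact zero_ne_one h1
    · rw [(h2 i).2.1, norm_mul, n2, h1]
      norm_num
  · obtain ⟨h1, h2⟩ := h.2.2 z w hw
    exact ⟨h1, fun i => (h2 i).2.1⟩

lemma strongly_of {F : MvPolynomial (Fin n) ℚ_[2]} (h : Pool.Agent.Run7.h587.Ad.Adapted F)
    (hu : Unit2 F) : StronglyAdapted F := by
  have h' := (adT_iff _).2 h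
  refine ⟨h.1, h.2.1, fun z w hw => ⟨(hu z w hw).1, fun i => ⟨?_, (hu z w hw).2 i, ?_⟩⟩⟩
  · exact ((h.2.2 z w hw).2 i).1
  · exact ((h'.2.2 z w hw).2 i).2.2

/-- the moves -/
lemma move_of [CharZero K] {σ : K →+* ℚ_[2]} (hf : Pool.Agent.Run7.h587.Ad.Adapted (f.map σ)) {R : Set _}
    (hR : Cm f R) {P Q : (Fin n → K) × K} (hP : P ∈ R) (h : Move f P Q) : Q ∈ R := by
  classical
  obtain ⟨i, h₀, m, x, y, hxy, e, hd, rfl⟩ := h
  have hPX := hR.1 P hP
  have hio := Pool.Agent.Q35.ZC.io_of hPX ((moves_eq _ _ _).1 (moves_K σ hf hPX i).2)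
  have hw : P.2 ≠ 0 := ne_K hf hPX
  refine hR.2 i P.1 P.2 _ _ hP ⟨hw, h₀, ?_, m, x, y, hxy, e, hd, rfl, rfl⟩
  exact hio.2 h₀

lemma of_move {R : Set ((Fin n → K) × K)} (hR : ∀ P Q, P ∈ R → Move f P Q → Q ∈ R)
    (i : Fin n) {z : Fin n → K} {w u Z : K} (h : (z, w) ∈ R)
    (hM : Pool.Agent.Q35.ZC.MulPt (w, Pool.Agent.Y720.MZ.cq f z (Pi.single i 1)) u Z) :
    ((fun a => z a + u * (Pi.single i 1 : Fin n → K) a), Z) ∈ R := by
  obtain ⟨hw, h₀, -, m, x, y, hxy, e, hd, rfl, rfl⟩ := hM
  exact hR (z, w) _ h ⟨i, h₀, m, x, y, hxy, e, hd, rfl⟩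

lemma orbit_eq [CharZero K] {σ : K →+* ℚ_[2]} (hf : Pool.Agent.Run7.h587.Ad.Adapted (f.map σ))
    {P : (Fin n → K) × K} (hP : P ∈ points f) : orbit f P = Orb f P := by
  have hd : ∀ j, f.degreeOf j ≤ 4 := map_degreeOf hf.1
  apply Set.Subset.antisymm
  · intro Q hQ
    have hQ' : Relation.ReflTransGen (Move f) P Q := hQ
    induction hQ' with
    | refl => exact orb_self P
    | tail h1 h2 ih => exact move_of hf (orb_cm hd hP) (ih h1) h2
  · intro Q hQ
    refine hQ (orbit f P) ⟨?_, ?_⟩ Relation.ReflTransGen.refl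
    · intro Q hQ
      have hQ' : Relation.ReflTransGen (Move f) P Q := hQ
      have hall := all_cm (f := f) hd
      clear hQ
      induction hQ' with
      | refl => exact hP
      | tail h1 h2 ih => exact move_of hf hall ih h2
    · intro i z w u Z h hM
      exact of_move (R := orbit f P) (fun A B hA hB => Relation.ReflTransGen.tail hA hB) i h hM

end aux

/-- **The residue classes modulo eight.** -/
theorem result :
    (∀ (K : Type) [Field K] [CharZero K] (σ : K →+* ℚ_[2]) (n : ℕ) (f : MvPolynomial (Fin n) K),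
      n ≠ 0 → StronglyAdapted (map σ f) →
      -- (1) the closures of the orbits are the residue classes modulo 8
      (∀ P ∈ points f, Cl σ (orbit f P) = {S | S ∈ points (map σ f) ∧ Congr σ S P}) ∧
      -- (2) the closure of the set of all the `K`-points
      Cl σ (points f) = {S | S ∈ points (map σ f) ∧ ∃ P ∈ points f, Congr σ S P} ∧
      -- (3) finitely many orbits are sufficient
      ∃ T : Finset ((Fin n → K) × K), T.card ≤ 8 ^ n ∧ (∀ P ∈ T, P ∈ points f) ∧
        Cl σ (points f) = ⋃ P ∈ T, Cl σ (orbit f P)) ∧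
    -- (4) the residue class modulo 4
    (∀ (n : ℕ) (g : MvPolynomial (Fin n) ℤ), (∀ i, g.degreeOf i ≤ 4) →
      StronglyAdapted (map (Int.castRingHom ℚ_[2]) (member g))) ∧
    -- (5) prescribed residue classes modulo 8, for varieties near a given one
    (∀ (n : ℕ) (c₀ : (Fin n → Fin 5) → ℤ) (M : ℕ) (T : Finset (Fin n → ℤ)), n ≠ 0 →
      T.card ≤ 5 ^ n → (∀ v ∈ T, (8 : ℤ) ∣ eval v (member (poly c₀)) - 1) →
      ∃ c : (Fin n → Fin 5) → ℤ, (∀ e, (2 : ℤ) ^ M ∣ c e - c₀ e) ∧ ∀ v ∈ T,
        ∀ S ∈ points (map (Int.castRingHom ℚ_[2]) (member (poly c))),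
          (∀ i, ‖S.1 i - (v i : ℚ_[2])‖ ≤ 1 / 8) →
          S ∈ Cl (algebraMap ℚ ℚ_[2]) (points (map (Int.castRingHom ℚ) (member (poly c))))) ∧
    -- (6) surfaces with a dense set of rational points near all the surfaces of the class
    (∀ (c₀ : (Fin 2 → Fin 5) → ℤ) (M : ℕ), ∃ c : (Fin 2 → Fin 5) → ℤ,
      (∀ e, (2 : ℤ) ^ M ∣ c e - c₀ e) ∧ DenseAtTwo (member (poly c))) ∧
    -- (7) the surfaces with a dense set of rational points are Zariski dense
    (∀ P : MvPolynomial (Fin 2 → Fin 5) ℂ, P ≠ 0 → ∃ c : (Fin 2 → Fin 5) → ℤ,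
      eval (fun e => (c e : ℂ)) P ≠ 0 ∧ DenseAtTwo (member (poly c))) ∧
    -- (8) an example
    DenseAtTwo exampleK3 := by
  have hm : ∀ (n : ℕ) (g : MvPolynomial (Fin n) ℤ) (R : Type) [CommRing R],
      map (Int.castRingHom R) (member g) = fc R g := fun n g R _ => mem_map R g
  have h6 : ∀ (c₀ : (Fin 2 → Fin 5) → ℤ) (M : ℕ), ∃ c : (Fin 2 → Fin 5) → ℤ,
      (∀ e, (2 : ℤ) ^ (M + 1) ∣ c e - c₀ e) ∧ DenseAtTwo (member (poly c)) := by
    intro c₀ M
    obtain ⟨c, h1, h2⟩ := dense_two c₀ M
    refine ⟨c, h1, ?_⟩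
    unfold DenseAtTwo
    rw [hm, hm]
    intro S hS
    exact h2 S hS
  refine ⟨fun K _ _ σ n f hn hf => ?_, ?_, ?_, ?_, ?_, ?_⟩
  · obtain ⟨hf', hu⟩ := adapted_iff _ hf
    refine ⟨fun P hP => ?_, ?_, ?_⟩
    · rw [orbit_eq hf' hP]
      exact cl_orb hn hf' hu hP
    · exact cl_eq hn hf' hu (all_cm (map_degreeOf hf'.1))
    · obtain ⟨T, h1, h2, h3⟩ := fin_orb hn hf' hu
      refine ⟨T, h1, h2, ?_⟩
      have h4 : Cl σ (points f) = ⋃ P ∈ T, closure (ImR (Orb f P) σ) := h3
      rw [h4]
      refine Set.iUnion₂_congr fun P hP => ?_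
      rw [orbit_eq hf' (h2 P hP)]
      rfl
  · intro n g hg
    rw [hm]
    exact strongly_of (cls_adapted hg) (cls_unit hg)
  · intro n c₀ M T hn hT h8
    obtain ⟨c, h1, h2⟩ := dense_gen hn (Finset.univ : Finset T) (by
      rw [Finset.card_univ, Fintype.card_coe]
      exact hT) (fun v => v.1) c₀ (fun v => h8 v.1 v.2) M
    refine ⟨c, fun e => (pow_dvd_pow 2 (Nat.le_succ M)).trans (h1 e), fun v hv => ?_⟩
    rw [hm, hm]
    intro S hS hSv
    exact h2 ⟨v, hv⟩ (Finset.mem_univ _) S hS hSv
  · intro c₀ M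
    obtain ⟨c, h1, h2⟩ := h6 c₀ M
    exact ⟨c, fun e => (pow_dvd_pow 2 (Nat.le_succ M)).trans (h1 e), h2⟩
  · intro P hP
    obtain ⟨c₀, M, h1⟩ := zar_dense hP
    obtain ⟨c, h2, h3⟩ := h6 c₀ M
    exact ⟨c, h1 c h2, h3⟩
  · have he : exampleK3 = member gex := by
      unfold exampleK3 member gex uu
      rw [Fin.prod_univ_two, Fin.sum_univ_two]
      ring
    unfold DenseAtTwo
    rw [he, hm, hm]
    intro S hS
    exact ex_dense hS

end Pool.Agent.Results.MP_ed3816_nt.ResiduesModEight
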